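import Mathlib

set_option autoImplicit false

namespace Pool.Agent.H8R2.Mob

/-! The poset is the face poset of a Moebius band: the six vertex projective plane with two
adjacent triangles and their common edge removed (6 vertices, 14 edges, 8 triangles).
Its boundary is a 4-cycle. -/

/-- the eight triangles -/
def facets : List (Finset (Fin 6)) :=
  [{0, 2, 3}, {0, 3, 4}, {0, 4, 5}, {1, 2, 4}, {2, 3, 5}, {1, 3, 4}, {2, 4, 5}, {1, 3, 5}]

/-- faces of the complex -/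
def isF (s : Finset (Fin 6)) : Bool :=
  decide (s.Nonempty) && facets.any (fun t => decide (s ⊆ t))

/-- the poset -/
abbrev X : Type := {s : Finset (Fin 6) // isF s = true}

theorem isF_mono {s t : Finset (Fin 6)} (hs : s.Nonempty) (hst : s ⊆ t) (ht : isF t = true) :
    isF s = true := by
  simp only [isF, Bool.and_eq_true, decide_eq_true_eq, List.any_eq_true] at ht ⊢
  obtain ⟨_, u, hu, hu'⟩ := ht
  exact ⟨hs, u, hu, hst.trans hu'⟩

/-- bit mask of `{a, b, c}` -/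
def mk (a b c : Fin 6) : ℕ := 2 ^ (a : ℕ) ||| 2 ^ (b : ℕ) ||| 2 ^ (c : ℕ)

theorem isF_mk : ∀ a b c : Fin 6, isF {a, b, c} = Nat.testBit 5371213209089910 (mk a b c) := by
  decide +kernel

theorem mem_mk : ∀ a b c x : Fin 6, x ∈ ({a, b, c} : Finset (Fin 6)) ↔
    Nat.testBit (mk a b c) (x : ℕ) = true := by
  decide +kernel

theorem eq_of_mk {a b c i j k : Fin 6} (h : mk a b c = mk i j k) :
    ({a, b, c} : Finset (Fin 6)) = {i, j, k} := by
  ext x
  rw [mem_mk, mem_mk, h]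

/-- `{a, b, c}` is a face (mask version) -/
def fc (a b c : Fin 6) : Bool := Nat.testBit 5371213209089910 (mk a b c)

/-- the masks of two triples differ -/
def ne (a b c i j k : Fin 6) : Bool := !(Nat.beq (mk a b c) (mk i j k))

/-- constraints on the images of `3, 4` -/
def c4 (g3 g4 : Fin 6) : Bool := ne g3 g3 g3 3 3 3 && ne g4 g4 g4 4 4 4 && ne g3 g4 g4 3 4 4

/-- constraints involving the image of `0` -/
def c0 (g3 g4 g0 : Fin 6) : Bool := ne g0 g0 g0 0 0 0 && fc g0 g3 g4 && ne g0 g3 g3 0 3 3 &&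
  ne g0 g4 g4 0 4 4 && ne g0 g3 g4 0 3 4

/-- constraints involving the image of `5` -/
def c5 (g3 g4 g0 g5 : Fin 6) : Bool := ne g5 g5 g5 5 5 5 && fc g0 g4 g5 && ne g4 g5 g5 4 5 5 &&
  ne g0 g5 g5 0 5 5 && ne g0 g4 g5 0 4 5 && ne g3 g5 g5 3 5 5

/-- constraints involving the image of `2` -/
def c2 (g3 g4 g0 g5 g2 : Fin 6) : Bool := ne g2 g2 g2 2 2 2 && fc g0 g2 g3 && fc g2 g3 g5 &&
  fc g2 g4 g5 && ne g0 g2 g2 0 2 2 && ne g2 g3 g3 2 3 3 && ne g2 g5 g5 2 5 5 && ne g2 g4 g4 2 4 4 &&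
  ne g0 g2 g3 0 2 3 && ne g2 g3 g5 2 3 5 && ne g2 g4 g5 2 4 5

/-- constraints involving the image of `1` -/
def c1 (g3 g4 g5 g2 g1 : Fin 6) : Bool := ne g1 g1 g1 1 1 1 && fc g1 g2 g4 && fc g1 g3 g4 &&
  fc g1 g3 g5 && ne g1 g2 g2 1 2 2 && ne g1 g3 g3 1 3 3 && ne g1 g4 g4 1 4 4 && ne g1 g5 g5 1 5 5 &&
  ne g1 g2 g4 1 2 4 && ne g1 g3 g4 1 3 4 && ne g1 g3 g5 1 3 5

/-- no simplicial self-map moves every simplex -/
theorem search : ∀ g3 g4 : Fin 6, c4 g3 g4 = true → ∀ g0 : Fin 6, c0 g3 g4 g0 = true →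
    ∀ g5 : Fin 6, c5 g3 g4 g0 g5 = true → ∀ g2 : Fin 6, c2 g3 g4 g0 g5 g2 = true →
    ∀ g1 : Fin 6, c1 g3 g4 g5 g2 g1 = false := by
  decide +kernel

theorem isF_single : ∀ i : Fin 6, isF {i} = true := by decide +kernel

theorem no_map (g : Fin 6 → Fin 6)
    (hg : ∀ s : Finset (Fin 6), isF s = true → isF (s.image g) = true ∧ s.image g ≠ s) :
    False := by
  have im : ∀ a b c : Fin 6, ({a, b, c} : Finset (Fin 6)).image g = {g a, g b, g c} := by
    intro a b c; simp [Finset.image_insert]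
  have F : ∀ a b c : Fin 6, isF {a, b, c} = true → fc (g a) (g b) (g c) = true := by
    intro a b c h
    have := (hg _ h).1
    rwa [im, isF_mk] at this
  have N : ∀ a b c : Fin 6, isF {a, b, c} = true → ne (g a) (g b) (g c) a b c = true := by
    intro a b c h
    unfold ne
    rw [Bool.not_eq_true']
    cases hb : Nat.beq (mk (g a) (g b) (g c)) (mk a b c)
    · rfl
    · exfalso
      apply (hg _ h).2
      rw [im]
      exact eq_of_mk (Nat.eq_of_beq_eq_true hb)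
  have h1 := search (g 3) (g 4) (by
    simp only [c4, Bool.and_eq_true]
    exact ⟨⟨N 3 3 3 (by decide), N 4 4 4 (by decide)⟩, N 3 4 4 (by decide)⟩)
  have h2 := h1 (g 0) (by
    simp only [c0, Bool.and_eq_true]
    exact ⟨⟨⟨⟨N 0 0 0 (by decide), F 0 3 4 (by decide)⟩, N 0 3 3 (by decide)⟩,
      N 0 4 4 (by decide)⟩, N 0 3 4 (by decide)⟩)
  have h3 := h2 (g 5) (by
    simp only [c5, Bool.and_eq_true]
    exact ⟨⟨⟨⟨⟨N 5 5 5 (by decide), F 0 4 5 (by decide)⟩, N 4 5 5 (by decide)⟩,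
      N 0 5 5 (by decide)⟩, N 0 4 5 (by decide)⟩, N 3 5 5 (by decide)⟩)
  have h4 := h3 (g 2) (by
    simp only [c2, Bool.and_eq_true]
    exact ⟨⟨⟨⟨⟨⟨⟨⟨⟨⟨N 2 2 2 (by decide), F 0 2 3 (by decide)⟩, F 2 3 5 (by decide)⟩,
      F 2 4 5 (by decide)⟩, N 0 2 2 (by decide)⟩, N 2 3 3 (by decide)⟩, N 2 5 5 (by decide)⟩,
      N 2 4 4 (by decide)⟩, N 0 2 3 (by decide)⟩, N 2 3 5 (by decide)⟩, N 2 4 5 (by decide)⟩)
  have h5 := h4 (g 1)
  have h6 : c1 (g 3) (g 4) (g 5) (g 2) (g 1) = true := by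
    simp only [c1, Bool.and_eq_true]
    exact ⟨⟨⟨⟨⟨⟨⟨⟨⟨⟨N 1 1 1 (by decide), F 1 2 4 (by decide)⟩, F 1 3 4 (by decide)⟩,
      F 1 3 5 (by decide)⟩, N 1 2 2 (by decide)⟩, N 1 3 3 (by decide)⟩, N 1 4 4 (by decide)⟩,
      N 1 5 5 (by decide)⟩, N 1 2 4 (by decide)⟩, N 1 3 4 (by decide)⟩, N 1 3 5 (by decide)⟩
  rw [h5] at h6
  exact Bool.noConfusion h6

/-- a monotone self-map of a finite poset with `x ≤ f x` for some `x` has a fixed point -/
theorem fix_of_le {P : Type} [PartialOrder P] [Finite P] (f : P →o P) (x : P) (hx : x ≤ f x) :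
    ∃ y, f y = y := by
  obtain ⟨m, hm⟩ := (Set.toFinite {y : P | y ≤ f y}).exists_maximal ⟨x, hx⟩
  have h1 : m ≤ f m := hm.1
  have h2 : f m ≤ f (f m) := f.monotone h1
  exact ⟨m, le_antisymm (hm.2 h2 h1) h1⟩

/-- a monotone self-map of a finite poset with `f x ≤ x` for some `x` has a fixed point -/
theorem fix_of_ge {P : Type} [PartialOrder P] [Finite P] (f : P →o P) (x : P) (hx : f x ≤ x) :
    ∃ y, f y = y := by
  obtain ⟨m, hm⟩ := (Set.toFinite {y : P | f y ≤ y}).exists_minimal ⟨x, hx⟩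
  have h1 : f m ≤ m := hm.1
  have h2 : f (f m) ≤ f m := f.monotone h1
  exact ⟨m, le_antisymm h1 (hm.2 h2 h1)⟩

/-- A finite poset isomorphic to the face poset of a simplicial complex `L` on `Fin 6` has the
fixed point property as soon as no simplicial self-map of `L` moves all simplices. -/
theorem fpp_of_complex {P : Type} [PartialOrder P] [Finite P] (e : P → Finset (Fin 6))
    (he : ∀ x y : P, e x ⊆ e y → x ≤ y) (he' : ∀ x y : P, x ≤ y → e x ⊆ e y)
    (L : Finset (Fin 6) → Prop) (hL : ∀ s, L s → ∃ x, e x = s) (hL' : ∀ x, L (e x))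
    (hne : ∀ s, L s → s.Nonempty)
    (hmono : ∀ s t, s.Nonempty → s ⊆ t → L t → L s)
    (hsearch : ∀ g : Fin 6 → Fin 6, (∀ s, L s → L (s.image g) ∧ s.image g ≠ s) → False)
    (f : P →o P) : ∃ x, f x = x := by
  classical
  by_contra hno
  push Not at hno
  have hle : ∀ x : P, ¬ x ≤ f x := by
    intro x hx
    obtain ⟨y, hy⟩ := fix_of_le f x hx
    exact hno y hy
  have hex : ∀ i : Fin 6, ∃ j : Fin 6, ∀ x : P, e x = {i} → j ∈ e (f x) := by
    intro i
    by_cases h : L {i}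
    · obtain ⟨x, hx⟩ := hL _ h
      obtain ⟨j, hj⟩ := hne _ (hL' (f x))
      refine ⟨j, fun y hy => ?_⟩
      have : y = x := le_antisymm (he _ _ (by rw [hx, hy])) (he _ _ (by rw [hx, hy]))
      rw [this]; exact hj
    · refine ⟨i, fun y hy => ?_⟩
      exact absurd (hy ▸ hL' y) h
  choose g hg using hex
  apply hsearch g
  intro s hs
  obtain ⟨x, hx⟩ := hL s hs
  have hsub : s.image g ⊆ e (f x) := by
    intro y hy
    obtain ⟨i, hi, rfl⟩ := Finset.mem_image.1 hy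
    have hi' : L {i} := hmono {i} s (Finset.singleton_nonempty i)
      (Finset.singleton_subset_iff.2 hi) hs
    obtain ⟨z, hz⟩ := hL _ hi'
    have hzx : z ≤ x := he _ _ (by rw [hz, hx]; exact Finset.singleton_subset_iff.2 hi)
    exact he' _ _ (f.monotone hzx) (hg i z hz)
  refine ⟨hmono _ _ ((hne s hs).image g) hsub (hL' _), ?_⟩
  intro h
  rw [h, ← hx] at hsub
  exact hle x (he _ _ hsub)

end Pool.Agent.H8R2.Mob
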